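import Mathlib
import Pool.Agent.Lib_helper26.PT.Final

/-!
A fourth value of `n` for which `a(n) = p_n + p_{n+1} + ⋯ + p_{2n}` is a perfect square.

The `k`-th prime `p_k` (with `p_1 = 2`) is `Nat.nth Nat.Prime (k - 1)`.  The witness is
`n = 111008771`, with `p_n = 2274652151`, `p_{2n} = 4711447171` and `a(n) = 622112686 ^ 2`.
The proof counts and sums the primes up to `p_{2n}` in the kernel: a progressive sieve of the
residue classes modulo `210` (big-number bit vectors) counts the integers without a prime factor
below `1693`, and the semiprimes among them are removed by Meissel's formula.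
-/

namespace Pool.Agent.Results.MP_dcd7a9_nt.FourthSquare

theorem result :
    (111008771 : ℕ) ∉ ({3, 6, 4072} : Set ℕ) ∧
      ∑ k ∈ Finset.Icc 111008771 (2 * 111008771), Nat.nth Nat.Prime (k - 1) = 622112686 ^ 2 :=
  ⟨by norm_num, Pool.Agent.Lib_helper26.PT.final_sum⟩

end Pool.Agent.Results.MP_dcd7a9_nt.FourthSquare
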